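import Pool.Agent.H720R2.NR.UB2
import Pool.Agent.H720R2.NR.TGEO
import Pool.Agent.Helper368.F96.Last

open scoped ComplexConjugate
open Filter

namespace Pool.Agent.Results.MP_f96e05_an.NearAntipodal

/-- The Taylor coefficients of an element of the Hardy space `H²`: a square summable sequence. -/
def InHardy (a : ℕ → ℂ) : Prop := Summable (fun n => ‖a n‖ ^ 2)

/-- The value at `z` of the analytic function with Taylor coefficients `a`. -/
noncomputable def val (a : ℕ → ℂ) (z : ℂ) : ℂ := ∑' n : ℕ, a n * z ^ n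

/-- The square of the norm of `H²`. -/
noncomputable def normSq (a : ℕ → ℂ) : ℝ := ∑' n : ℕ, ‖a n‖ ^ 2

/-- The inner product `⟨b, a⟩` of `H²`. -/
noncomputable def ip (b a : ℕ → ℂ) : ℂ := ∑' n : ℕ, b n * conj (a n)

/-- The numerical range `{⟨C_φ f, f⟩ : ‖f‖ = 1}` of the composition operator `C_φ f = f ∘ φ` on `H²`:
`a` are the Taylor coefficients of `f` and `b` those of `C_φ f`. -/
def numRange (φ : ℂ → ℂ) : Set ℂ :=
  {l | ∃ a b : ℕ → ℂ, InHardy a ∧ InHardy b ∧ normSq a = 1 ∧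
    (∀ z : ℂ, ‖z‖ < 1 → val b z = val a (φ z)) ∧ l = ip b a}

/-- The disc automorphism `c (z - p) / (1 - p̄ z)`. -/
noncomputable def mob (c p z : ℂ) : ℂ := c * ((z - p) / (1 - conj p * z))

lemma mem_of_inHardy {a : ℕ → ℂ} (ha : InHardy a) : Memℓp a 2 := by
  rw [memℓp_gen_iff (by norm_num)]
  simpa [InHardy] using ha

lemma inHardy_coe (f : F96.H2) : InHardy f := by
  have h := (memℓp_gen_iff (p := 2) (by norm_num)).1 (lp.memℓp f)
  simpa [InHardy] using h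

lemma normSq_coe (f : F96.H2) : normSq f = ‖f‖ ^ 2 := by
  have h := lp.norm_rpow_eq_tsum (p := 2) (by norm_num) f
  simpa [normSq] using h.symm

lemma ip_coe (f g : F96.H2) : ip g f = inner ℂ f g := by
  rw [lp.inner_eq_tsum]
  unfold ip
  congr 1

lemma mem_numRange_iff {φ : ℂ → ℂ} {C : F96.H2 →L[ℂ] F96.H2}
    (hC : ∀ f : F96.H2, ∀ z : ℂ, ‖z‖ < 1 → F96.ev (C f) z = F96.ev f (φ z)) (l : ℂ) :
    l ∈ numRange φ ↔ ∃ f : F96.H2, ‖f‖ = 1 ∧ l = inner ℂ f (C f) := by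
  constructor
  · rintro ⟨a, b, ha, hb, hn, hab, hl⟩
    set f : F96.H2 := ⟨a, mem_of_inHardy ha⟩ with hf
    set g : F96.H2 := ⟨b, mem_of_inHardy hb⟩ with hg
    have h1 : g = C f := by
      apply F96.ev_injective
      intro z hz
      rw [hC f z hz]
      exact hab z hz
    refine ⟨f, ?_, ?_⟩
    · have h2 : ‖f‖ ^ 2 = 1 := by
        rw [← normSq_coe]
        exact hn
      have h3 := norm_nonneg f
      nlinarith
    · rw [← h1, hl, ← ip_coe]
  · rintro ⟨f, hf, hl⟩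
    refine ⟨f, C f, inHardy_coe f, inHardy_coe _, ?_, ?_, ?_⟩
    · rw [normSq_coe, hf]
      norm_num
    · intro z hz
      exact hC f z hz
    · rw [hl, ip_coe]

/-- The numerical radius of `C_φ` for a hyperbolic automorphism `φ` of the disc with attractive fixed
point `ω`, repulsive fixed point `β` and `φ'(ω) = α` is `1/√α`, and it is not attained, if the fixed
points are nearly antipodal: `1 - |ω - β|²/4` is at most the value of an explicit function for some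
`κ > 0` (`κ = α` gives `(1-α)(3-α)/(3+α)²` and `κ = √α` gives `(1-√α)(2-√α)/4`). -/
theorem result (c p ω β : ℂ) (α κ : ℝ) (hc : ‖c‖ = 1) (hp : ‖p‖ < 1) (hω : ‖ω‖ = 1) (hβ : ‖β‖ = 1)
    (hne : ω ≠ β) (hα0 : 0 < α) (hα1 : α < 1) (h1 : mob c p ω = ω) (h2 : mob c p β = β)
    (h3 : HasDerivAt (mob c p) (α : ℂ) ω) (hκ : 0 < κ)
    (h4 : 1 - ‖ω - β‖ ^ 2 / 4 ≤
      (1 - α) * κ * (α + (2 - α) * κ) / (κ ^ 2 + 2 * κ + α) ^ 2) :
    IsLUB {r : ℝ | ∃ l ∈ numRange (mob c p), r = ‖l‖} (1 / Real.sqrt α) ∧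
      ∀ l ∈ numRange (mob c p), ‖l‖ < 1 / Real.sqrt α := by
  obtain ⟨η, b, hη, hb, hb1, hbre, hφ⟩ :=
    Pool.Agent.H720R2.NR.t_GEO c p ω β α hc hp hω hβ hne hα0 hα1 h1 h2 h3
  obtain ⟨C, hC⟩ := F96.exists_comp c p hc hp
  have hs : 1 / Real.sqrt α = Real.sqrt (α⁻¹) := by rw [Real.sqrt_inv, one_div]
  have hl1 : 1 < α⁻¹ := (one_lt_inv₀ hα0).2 hα1
  have hcond : Pool.Agent.H720R2.NR.Cd α⁻¹ (2 * b.re) κ := by
    refine ⟨hκ, ?_⟩
    rw [← hbre, le_div_iff₀ (by positivity)] at h4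
    have e1 : (2 * b.re) ^ 2 * (α⁻¹ * κ ^ 2 + 2 * α⁻¹ * κ + 1) ^ 2 =
        4 / α ^ 2 * (b.re ^ 2 * (κ ^ 2 + 2 * κ + α) ^ 2) := by
      field_simp
      ring
    have e2 : 4 * ((α⁻¹ - 1) * κ * (1 + (2 * α⁻¹ - 1) * κ)) =
        4 / α ^ 2 * ((1 - α) * κ * (α + (2 - α) * κ)) := by
      field_simp
    rw [e1, e2]
    exact mul_le_mul_of_nonneg_left h4 (by positivity)
  have hUB := Pool.Agent.H720R2.NR.ub2 η b α⁻¹ κ (mob c p) C hη hb hb1 hl1 hcond hφ hC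
  have hmem := mem_numRange_iff (φ := mob c p) hC
  have hfix : ∀ z : ℂ, ‖z‖ < 1 → c * ((z - p) / (1 - conj p * z)) ≠ z := by
    intro z hz hzz
    obtain ⟨s, hs0, hsz⟩ := F96.exists_zt (b := b) hη hb hz
    have h5 := hφ s hs0
    rw [hsz, hzz, ← hsz] at h5
    have him : 0 < (((α⁻¹ : ℝ) : ℂ) * s).im := by
      rw [Complex.im_ofReal_mul]; positivity
    have h6 := F96.zt_inj hη hb hs0 him h5
    have h7 := congrArg Complex.im h6
    rw [Complex.im_ofReal_mul] at h7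
    nlinarith
  have hlt : ∀ l ∈ numRange (mob c p), ‖l‖ < 1 / Real.sqrt α := by
    intro l hl
    obtain ⟨f, hf1, rfl⟩ := (hmem l).1 hl
    rw [hs]
    refine lt_of_le_of_ne ?_ fun h => ?_
    · have := hUB f
      rwa [hf1, one_pow, mul_one] at this
    · exact F96.not_attained c p hc hp hfix C hC (Real.sqrt α⁻¹) hUB f hf1 h
  refine ⟨⟨?_, ?_⟩, hlt⟩
  · rintro r ⟨l, hl, rfl⟩
    exact (hlt l hl).le
  · intro r hr
    rw [hs]
    apply F96.sqrt_le_w hη hb α⁻¹ hl1 (mob c p) hφ C hC r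
    intro x
    by_cases hx : x = 0
    · rw [hx]
      simp
    · have hx' : ‖x‖ ≠ 0 := norm_ne_zero_iff.2 hx
      have h2 := hr ⟨inner ℂ ((‖x‖⁻¹ : ℂ) • x) (C ((‖x‖⁻¹ : ℂ) • x)), (hmem _).2 ⟨_, by
        rw [norm_smul, norm_inv, Complex.norm_real, norm_norm, inv_mul_cancel₀ hx'], rfl⟩, rfl⟩
      rw [map_smul, inner_smul_left, inner_smul_right, norm_mul, norm_mul, RCLike.norm_conj,
        norm_inv, Complex.norm_real, norm_norm] at h2
      have hpos : 0 < ‖x‖ := norm_pos_iff.2 hx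
      have h3 : ‖x‖⁻¹ * (‖x‖⁻¹ * ‖(inner ℂ x (C x) : ℂ)‖) = ‖(inner ℂ x (C x) : ℂ)‖ / ‖x‖ ^ 2 := by
        field_simp
      rw [h3, div_le_iff₀ (by positivity)] at h2
      exact h2

end Pool.Agent.Results.MP_f96e05_an.NearAntipodal
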